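import Pool.Agent.Helper84.BA.Pt
import Pool.Agent.Helper28.BA.JPcalc
import Pool.Agent.Helper49.BA.AdV

/-!
# Project BA, module B19: bad pairs of nodes

`bad_pair` (F5): two bad nodes have, above every level, bad extensions of the same length which
end with the same element of `H`. `bad_split` (F6): a bad node splits into bad nodes.
-/

set_option autoImplicit false

namespace Pool.Agent.Helper94.BA

open Pool.Agent.Helper33.HM Filter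

universe u

section

variable {B : Type u} [CompleteBooleanAlgebra B]

variable {K K' : Set (Finset ℕ → B)} {A : (ℕ → B) → B}

theorem h91_finV_mono {x y : ℕ → B} (h : x ≤ y) : finV y ≤ finV x := by
  unfold finV
  exact iSup_mono fun m => iInf_mono fun n => iInf_mono fun _ => compl_le_compl (h n)

theorem h91_bad_eq (T : List (Bool × ℕ) → B) (t : List (Bool × ℕ)) (H : ℕ → B) :
    (adV T t H)ᶜ = ⨆ x : ℕ → B, ⨆ w : ℕ → ℕ → B, brV x w t ⊓ brT T x w ⊓ (finV (x ⊓ H))ᶜ := by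
  unfold adV
  simp only [compl_iInf, compl_himp, sdiff_eq]

theorem h91_goodSet (T : List (Bool × ℕ) → B) (H : ℕ → B) (t : List (Bool × ℕ)) :
    ∀ᶠ φ in aeB B, ∀ k, φ (H k) → ¬ φ (goodSet T H t k) →
      ∃ (u : List (Bool × ℕ)) (m : ℕ), t <+: u ∧ u.length = k ∧
        φ (adV T (u ++ [(true, m)]) H)ᶜ := by
  filter_upwards [ae_forall fun k : ℕ => ae_iInf fun u : List (Bool × ℕ) => ⨅ m : ℕ,
    ⨅ _ : t <+: u ∧ u.length = k, adV T (u ++ [(true, m)]) H,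
    ae_forall fun k : ℕ => ae_forall fun u : List (Bool × ℕ) => ae_iInf fun m : ℕ =>
    ⨅ _ : t <+: u ∧ u.length = k, adV T (u ++ [(true, m)]) H] with φ h1 h2 k hk hG
  by_contra hcon
  push Not at hcon
  refine hG ?_
  unfold goodSet
  rw [Pt.inf, h1]
  refine ⟨hk, fun u => ?_⟩
  rw [h2]
  intro m
  rw [Pt.iInf_prop]
  intro hu
  have := hcon u m hu.1 hu.2
  rw [Pt.compl, not_not] at this
  exact this

/-- N10a. (F5) -/
theorem bad_pair (hK : SmallIdeal K) {T : List (Bool × ℕ) → B} {H : ℕ → B}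
    (hH : JP K A H = ⊤)
    (hG : ∀ t : List (Bool × ℕ), (adV T t H)ᶜ ⊓ JP K A (goodSet T H t) = ⊥)
    (t₀ t₁ : List (Bool × ℕ)) (n : ℕ) :
    (adV T t₀ H)ᶜ ⊓ (adV T t₁ H)ᶜ ≤
      ⨆ u : List (Bool × ℕ) × List (Bool × ℕ), ⨆ m : ℕ × ℕ,
        ⨆ _ : t₀ <+: u.1 ∧ t₁ <+: u.2 ∧ u.1.length = u.2.length ∧ n ≤ u.1.length,
          (adV T (u.1 ++ [(true, m.1)]) H)ᶜ ⊓ (adV T (u.2 ++ [(true, m.2)]) H)ᶜ := by
  set G0 := goodSet T H t₀ with hG0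
  set G1 := goodSet T H t₁ with hG1
  set X : ℕ → B := H ⊓ (G0 ⊔ G1)ᶜ with hX
  have h1 : JP K A H ≤ JP K A X ⊔ (JP K A G0 ⊔ JP K A G1) := by
    have h2 : H ≤ X ⊔ (G0 ⊔ G1) := by
      intro k
      show H k ≤ (H k ⊓ (G0 k ⊔ G1 k)ᶜ) ⊔ (G0 k ⊔ G1 k)
      rw [sup_inf_right, compl_sup_eq_top, inf_top_eq]
      exact le_sup_left
    exact (JP_mono K A h2).trans ((JP_sup hK A _ _).trans
      (sup_le_sup le_rfl (JP_sup hK A _ _)))
  rw [hH] at h1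
  refine le_of_ae ?_
  filter_upwards [h91_goodSet T H t₀, h91_goodSet T H t₁, ae_finV X,
    ae_iSup fun u : List (Bool × ℕ) × List (Bool × ℕ) => ⨆ m : ℕ × ℕ,
        ⨆ _ : t₀ <+: u.1 ∧ t₁ <+: u.2 ∧ u.1.length = u.2.length ∧ n ≤ u.1.length,
          (adV T (u.1 ++ [(true, m.1)]) H)ᶜ ⊓ (adV T (u.2 ++ [(true, m.2)]) H)ᶜ,
    ae_forall fun u : List (Bool × ℕ) × List (Bool × ℕ) => ae_iSup fun m : ℕ × ℕ =>
        ⨆ _ : t₀ <+: u.1 ∧ t₁ <+: u.2 ∧ u.1.length = u.2.length ∧ n ≤ u.1.length,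
          (adV T (u.1 ++ [(true, m.1)]) H)ᶜ ⊓ (adV T (u.2 ++ [(true, m.2)]) H)ᶜ]
    with φ g0 g1 hf s1 s2 hφ
  rw [Pt.inf] at hφ
  have e0 : ¬ φ (JP K A G0) := fun h => not_of_eq_bot (hG t₀) φ (by
    rw [Pt.inf]; exact ⟨hφ.1, h⟩)
  have e1 : ¬ φ (JP K A G1) := fun h => not_of_eq_bot (hG t₁) φ (by
    rw [Pt.inf]; exact ⟨hφ.2, h⟩)
  have e2 : φ (JP K A X) := by
    have h3 := φ.mono h1 φ.top'
    rw [Pt.sup, Pt.sup] at h3
    tauto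
  have e3 : ¬ φ (finV X) := fun h => not_of_eq_bot (JP_fin hK A X) φ (by
    rw [Pt.inf]; exact ⟨e2, h⟩)
  rw [hf] at e3
  push Not at e3
  obtain ⟨k, hk, hXk⟩ := e3 n
  have hXk' : φ (H k ⊓ (G0 k ⊔ G1 k)ᶜ) := hXk
  rw [Pt.inf, Pt.compl, Pt.sup] at hXk'
  obtain ⟨hHk, hGk⟩ := hXk'
  push Not at hGk
  obtain ⟨u0, m0, a0, b0, c0⟩ := g0 k hHk hGk.1
  obtain ⟨u1, m1, a1, b1, c1⟩ := g1 k hHk hGk.2
  rw [s1]
  refine ⟨(u0, u1), ?_⟩
  rw [s2]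
  refine ⟨(m0, m1), ?_⟩
  rw [Pt.iSup_prop]
  refine ⟨⟨a0, a1, by rw [b0, b1], by rw [b0]; exact hk⟩, ?_⟩
  rw [Pt.inf]
  exact ⟨c0, c1⟩

theorem h91_snoc {t u : List (Bool × ℕ)} {k : ℕ} (hk : t.length ≤ k) (h : t <+: u)
    (hu : u.length = k + 1) :
    ∃ (u0 : List (Bool × ℕ)) (b : Bool) (m : ℕ), u = u0 ++ [(b, m)] ∧ t <+: u0 ∧
      u0.length = k := by
  have hne : u ≠ [] := by
    rintro rfl
    simp at hu
  refine ⟨u.dropLast, (u.getLast hne).1, (u.getLast hne).2, ?_, ?_, ?_⟩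
  · exact (List.dropLast_append_getLast hne).symm
  · refine List.prefix_of_prefix_length_le h (List.dropLast_prefix u) ?_
    rw [List.length_dropLast, hu]
    exact hk
  · rw [List.length_dropLast, hu]
    rfl

/-- N10b. (F6) -/
theorem bad_split {T : List (Bool × ℕ) → B} {H : ℕ → B} (hTA : ∀ x w, brT T x w ≤ A x)
    (hH : JP K A H = ⊤)
    (hD : ∀ (t : List (Bool × ℕ)) (H' : ℕ → B), H' ≤ H →
      JP K A H' ⊓ adV T t H' ≤ adV T t H) (t : List (Bool × ℕ)) :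
    (adV T t H)ᶜ ≤
      ⨆ u : List (Bool × ℕ) × List (Bool × ℕ), ⨆ m : ℕ × ℕ,
        ⨆ _ : t <+: u.1 ∧ t <+: u.2 ∧ u.1.length = u.2.length,
          (adV T (u.1 ++ [(false, m.1)]) H)ᶜ ⊓ (adV T (u.2 ++ [(true, m.2)]) H)ᶜ := by
  conv_lhs => rw [h91_bad_eq]
  refine iSup_le fun x => iSup_le fun w => ?_
  set a := brV x w t ⊓ brT T x w ⊓ (finV (x ⊓ H))ᶜ with ha
  set H' : ℕ → B := H ⊓ xᶜ with hH'
  have h1 : a ≤ JP K A H' := by
    have h2 : a ≤ A x := by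
      rw [ha, inf_assoc]
      exact inf_le_right.trans (inf_le_left.trans (hTA x w))
    have h3 := JP_diff K A x H
    rw [hH, inf_top_eq] at h3
    exact h2.trans h3
  have h4 : a ≤ (adV T t H)ᶜ := bad_of_branch T H x w t
  have h5 : a ≤ (adV T t H')ᶜ := by
    rw [le_compl_iff_disjoint_right, disjoint_iff]
    have h6 := hD t H' inf_le_left
    refine le_bot_iff.1 ?_
    calc a ⊓ adV T t H' ≤ (adV T t H)ᶜ ⊓ (JP K A H' ⊓ adV T t H') :=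
          le_inf (inf_le_left.trans h4) (inf_le_inf h1 le_rfl)
      _ ≤ (adV T t H)ᶜ ⊓ adV T t H := inf_le_inf le_rfl h6
      _ = ⊥ := by rw [compl_inf_eq_bot]
  rw [← inf_eq_left.2 h5, h91_bad_eq, inf_iSup_eq]
  refine iSup_le fun y => ?_
  rw [inf_iSup_eq]
  refine iSup_le fun v => ?_
  refine le_of_ae ?_
  filter_upwards [ae_finV (y ⊓ H'), ae_forall fun k : ℕ => ae_iSup fun u : List (Bool × ℕ) =>
      ⨆ _ : t <+: u ∧ u.length = k, brV x w u,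
    ae_forall fun k : ℕ => ae_iSup fun u : List (Bool × ℕ) =>
      ⨆ _ : t <+: u ∧ u.length = k, brV y v u,
    ae_brV x w, ae_brV y v,
    ae_iSup fun u : List (Bool × ℕ) × List (Bool × ℕ) => ⨆ m : ℕ × ℕ,
        ⨆ _ : t <+: u.1 ∧ t <+: u.2 ∧ u.1.length = u.2.length,
          (adV T (u.1 ++ [(false, m.1)]) H)ᶜ ⊓ (adV T (u.2 ++ [(true, m.2)]) H)ᶜ,
    ae_forall fun u : List (Bool × ℕ) × List (Bool × ℕ) => ae_iSup fun m : ℕ × ℕ =>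
        ⨆ _ : t <+: u.1 ∧ t <+: u.2 ∧ u.1.length = u.2.length,
          (adV T (u.1 ++ [(false, m.1)]) H)ᶜ ⊓ (adV T (u.2 ++ [(true, m.2)]) H)ᶜ]
    with φ hf q1 q2 q3 q4 s1 s2 hφ
  rw [Pt.inf, ha, Pt.inf, Pt.inf, Pt.inf, Pt.inf, Pt.compl (a := finV (y ⊓ H'))] at hφ
  obtain ⟨⟨⟨x1, x2⟩, x3⟩, ⟨y1, y2⟩, y3⟩ := hφ
  have y4 : φ (finV (y ⊓ H))ᶜ := by
    rw [Pt.compl]
    intro h
    refine y3 (φ.mono (h91_finV_mono ?_) h)
    exact inf_le_inf le_rfl inf_le_left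
  rw [hf] at y3
  push Not at y3
  obtain ⟨k, hk, hyk⟩ := y3 t.length
  have hyk' : φ (y k ⊓ (H k ⊓ (x k)ᶜ)) := hyk
  rw [Pt.inf, Pt.inf, Pt.compl] at hyk'
  obtain ⟨k1, k2, k3⟩ := hyk'
  have r1 : φ (⨆ u : List (Bool × ℕ), ⨆ _ : t <+: u ∧ u.length = k + 1, brV x w u) :=
    φ.mono (brV_extend T x w t (k + 1) (by omega)) (by rw [Pt.inf]; exact ⟨x1, x2⟩)
  have r2 : φ (⨆ u : List (Bool × ℕ), ⨆ _ : t <+: u ∧ u.length = k + 1, brV y v u) :=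
    φ.mono (brV_extend T y v t (k + 1) (by omega)) (by rw [Pt.inf]; exact ⟨y1, y2⟩)
  rw [q1] at r1
  rw [q2] at r2
  obtain ⟨u, hu⟩ := r1
  obtain ⟨u', hu'⟩ := r2
  rw [Pt.iSup_prop] at hu hu'
  obtain ⟨⟨hu1, hu2⟩, hu3⟩ := hu
  obtain ⟨⟨hu1', hu2'⟩, hu3'⟩ := hu'
  obtain ⟨u0, b0, m0, rfl, p0, l0⟩ := h91_snoc hk hu1 hu2
  obtain ⟨u1, b1, m1, rfl, p1, l1⟩ := h91_snoc hk hu1' hu2'
  have hb0 : b0 = false := by
    have h7 := ((q3 _).1 hu3 k (by omega)).1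
    rw [List.getElem_append_right (by omega)] at h7
    simp only [l0, Nat.sub_self, List.getElem_cons_zero] at h7
    rcases b0 with _ | _
    · rfl
    · exact (k3 (h7.1 rfl)).elim
  have hb1 : b1 = true := by
    have h7 := ((q4 _).1 hu3' k (by omega)).1
    rw [List.getElem_append_right (by omega)] at h7
    simp only [l1, Nat.sub_self, List.getElem_cons_zero] at h7
    exact h7.2 k1
  subst hb0 hb1
  rw [s1]
  refine ⟨(u0, u1), ?_⟩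
  rw [s2]
  refine ⟨(m0, m1), ?_⟩
  rw [Pt.iSup_prop]
  refine ⟨⟨p0, p1, by rw [l0, l1]⟩, ?_⟩
  rw [Pt.inf]
  constructor
  · refine φ.mono (bad_of_branch T H x w _) ?_
    rw [Pt.inf, Pt.inf]
    exact ⟨⟨hu3, x2⟩, x3⟩
  · refine φ.mono (bad_of_branch T H y v _) ?_
    rw [Pt.inf, Pt.inf]
    exact ⟨⟨hu3', y2⟩, y4⟩

end

end Pool.Agent.Helper94.BA
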